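import Pool.Agent.MVD.StmtsLoc

/-!
# Row CTG of squad MVD: gathering the letters `c` in all blocks
-/

set_option autoImplicit false

namespace Pool.Agent.MVD.H90

open Pool.Agent.Helper14_MV Pool.Agent.Helper2_MV

theorem Bw_cons (r : ℕ) (R : List ℕ) (B : ℕ → List ℕ) :
    Bw (r :: R) B = B r ++ ([3 * r + 2] ++ Bw R B) := by
  simp [Bw]

theorem Bw_congr (R : List ℕ) (B B' : ℕ → List ℕ) (h : ∀ r ∈ R, B r = B' r) : Bw R B = Bw R B' := by
  induction R with
  | nil => rfl
  | cons r R ih =>
    rw [Bw_cons, Bw_cons, h r List.mem_cons_self, ih (fun s hs => h s (List.mem_cons_of_mem _ hs))]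

theorem perm_gath (A g1 g2 : List ℕ) (c : ℕ)
    (h : g1 ++ g2 = A.filter (fun a => decide (a ≠ c))) (a : ℕ) :
    (g1 ++ (List.replicate (A.count c) c ++ g2)).count a = A.count a := by
  have h1 : g1.count a + g2.count a = (A.filter (fun a => decide (a ≠ c))).count a := by
    rw [← h, List.count_append]
  rw [List.count_append, List.count_append, List.count_replicate]
  by_cases hac : a = c
  · subst hac
    have h2 : (A.filter (fun b => decide (b ≠ a))).count a = 0 := by
      rw [List.count_eq_zero]
      intro hm
      have := (List.mem_filter.mp hm).2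
      simp at this
    simp
    omega
  · have h2 : (A.filter (fun b => decide (b ≠ c))).count a = A.count a :=
      List.count_filter (by simpa using hac)
    have h3 : (c == a) = false := by
      simpa using fun h => hac h.symm
    rw [h3]
    simp
    omega

theorem ctg_aux (hG : GtmStmt) (β : FIC) (hs : S2 β) (B : ℕ → List ℕ) (e : List ℕ) (c : ℕ) :
    ∀ (R p : List ℕ), R.Nodup →
      (∀ r ∈ R, ∀ a ∈ B r, a ≠ c → 2 ≤ (p ++ (Bw R B ++ e)).count a) →
      (∀ r ∈ R, ((B r).filter (fun a => decide (a ≠ c))).length ≤ 1 ∨
        (B r).count c < (p ++ (Bw R B ++ e)).count c) →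
      ∃ U V : ℕ → List ℕ, (∀ r ∈ R, U r ++ V r = (B r).filter (fun a => decide (a ≠ c))) ∧
        RR β (p ++ (Bw R B ++ e))
          (p ++ (Bw R (fun r => U r ++ (List.replicate ((B r).count c) c ++ V r)) ++ e)) := by
  intro R
  induction R with
  | nil =>
    intro p _ _ _
    exact ⟨fun _ => [], fun _ => [], by simp, RR.refl _⟩
  | cons r R ih =>
    intro p hnd h1 h2
    have hnr : r ∉ R := (List.nodup_cons.mp hnd).1
    have hw : p ++ (Bw (r :: R) B ++ e) = p ++ (B r ++ ([3 * r + 2] ++ (Bw R B ++ e))) := by
      rw [Bw_cons]
      simp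
    obtain ⟨g1, g2, hg, hr⟩ := hG β hs p (B r) ([3 * r + 2] ++ (Bw R B ++ e)) c
      (fun a ha hac => by
        have := h1 r List.mem_cons_self a ha hac
        rwa [hw] at this)
      (by
        rcases h2 r List.mem_cons_self with h | h
        · exact Or.inr (Or.inr h)
        · rw [hw, List.count_append, List.count_append] at h
          by_cases hp : c ∈ p
          · exact Or.inl hp
          · by_cases hq : c ∈ [3 * r + 2] ++ (Bw R B ++ e)
            · exact Or.inr (Or.inl hq)
            · rw [List.count_eq_zero.mpr hp, List.count_eq_zero.mpr hq] at h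
              omega)
    have hcnt : ∀ a, ((p ++ (g1 ++ (List.replicate ((B r).count c) c ++ g2)) ++ [3 * r + 2]) ++
        (Bw R B ++ e)).count a = (p ++ (Bw (r :: R) B ++ e)).count a := by
      intro a
      have := perm_gath (B r) g1 g2 c hg a
      rw [hw]
      simp only [List.count_append] at this ⊢
      omega
    obtain ⟨U, V, hUV, hR⟩ := ih (p ++ (g1 ++ (List.replicate ((B r).count c) c ++ g2)) ++
        [3 * r + 2]) (List.nodup_cons.mp hnd).2
      (fun s hs' a ha hac => by
        rw [hcnt]
        exact h1 s (List.mem_cons_of_mem _ hs') a ha hac)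
      (fun s hs' => by
        rw [hcnt]
        exact h2 s (List.mem_cons_of_mem _ hs'))
    refine ⟨fun s => if s = r then g1 else U s, fun s => if s = r then g2 else V s, ?_, ?_⟩
    · intro s hs'
      by_cases hsr : s = r
      · subst hsr
        simpa using hg
      · have : s ∈ R := by
          rcases List.mem_cons.mp hs' with h | h
          · exact absurd h hsr
          · exact h
        simpa [hsr] using hUV s this
    · have hB : Bw (r :: R) (fun s => (if s = r then g1 else U s) ++
          (List.replicate ((B s).count c) c ++ (if s = r then g2 else V s))) =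
          (g1 ++ (List.replicate ((B r).count c) c ++ g2)) ++ ([3 * r + 2] ++
            Bw R (fun s => U s ++ (List.replicate ((B s).count c) c ++ V s))) := by
        rw [Bw_cons, Bw_congr R _ (fun s => U s ++ (List.replicate ((B s).count c) c ++ V s))]
        · simp
        · intro s hs'
          have : s ≠ r := fun h => hnr (h ▸ hs')
          simp [this]
      show RR β _ (p ++ (Bw (r :: R) (fun s => (if s = r then g1 else U s) ++
          (List.replicate ((B s).count c) c ++ (if s = r then g2 else V s))) ++ e))
      rw [hB, hw]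
      have e1 : p ++ (g1 ++ (List.replicate ((B r).count c) c ++ (g2 ++
          ([3 * r + 2] ++ (Bw R B ++ e))))) =
          p ++ (g1 ++ (List.replicate ((B r).count c) c ++ g2)) ++ [3 * r + 2] ++
            (Bw R B ++ e) := by
        simp
      have e2 : p ++ (g1 ++ (List.replicate ((B r).count c) c ++ g2) ++ ([3 * r + 2] ++
          Bw R (fun s => U s ++ (List.replicate ((B s).count c) c ++ V s))) ++ e) =
          p ++ (g1 ++ (List.replicate ((B r).count c) c ++ g2)) ++ [3 * r + 2] ++
          (Bw R (fun s => U s ++ (List.replicate ((B s).count c) c ++ V s)) ++ e) := by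
        simp
      rw [e1] at hr
      rw [e2]
      exact β.trans hr hR

theorem ctg : GtmStmt → CtgStmt := by
  intro hG β hs R B e c hnd _ h1 h2
  exact ctg_aux hG β hs B e c R [] hnd h1 h2

end Pool.Agent.MVD.H90
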